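import Pool.Agent.H668Z.SC.Cfg

set_option autoImplicit false

namespace Pool.Agent.H119Z.Ker

open Pool.Agent.H668Z.SC

/-- the relation defining the induced set -/
def indSetoid {F G Q : Type} [Group F] [Group G] [Group Q] (φ : F →* G) (ψ : F →* Q) :
    Setoid (G × Q) where
  r x y := ∃ w : F, x.1 = y.1 * φ w ∧ y.2 = ψ w * x.2
  iseqv :=
    { refl := fun x => ⟨1, by simp, by simp⟩
      symm := by
        rintro x y ⟨w, h1, h2⟩
        exact ⟨w⁻¹, by simp [h1], by simp [h2]⟩
      trans := by
        rintro x y z ⟨w, h1, h2⟩ ⟨v, h3, h4⟩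
        exact ⟨v * w, by simp [h1, h3, mul_assoc], by simp [h4, h2, mul_assoc]⟩ }

/-- left multiplication on the induced set -/
def indMul {F G Q : Type} [Group F] [Group G] [Group Q] (φ : F →* G) (ψ : F →* Q) (g : G) :
    Quotient (indSetoid φ ψ) → Quotient (indSetoid φ ψ) :=
  Quotient.map (fun x => (g * x.1, x.2)) (by
    rintro x y ⟨w, h1, h2⟩
    exact ⟨w, by simp [h1, mul_assoc], h2⟩)

lemma indMul_mul {F G Q : Type} [Group F] [Group G] [Group Q] (φ : F →* G) (ψ : F →* Q)
    (g h : G) (x : Quotient (indSetoid φ ψ)) :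
    indMul φ ψ (g * h) x = indMul φ ψ g (indMul φ ψ h x) := by
  induction x using Quotient.inductionOn with
  | h x => simp [indMul, mul_assoc]

lemma indMul_one {F G Q : Type} [Group F] [Group G] [Group Q] (φ : F →* G) (ψ : F →* Q)
    (x : Quotient (indSetoid φ ψ)) : indMul φ ψ 1 x = x := by
  induction x using Quotient.inductionOn with
  | h x => simp [indMul]

lemma induced {F G Q : Type} [Group F] [Group G] [Group Q] (φ : F →* G) (ψ : F →* Q)
    (h : ∀ w, φ w = 1 → ψ w = 1) :
    ∃ (X : Type) (α : G →* Equiv.Perm X) (ι : Q ↪ X),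
      ∀ w q, α (φ w) (ι q) = ι (ψ w * q) := by
  letI : MulAction G (Quotient (indSetoid φ ψ)) :=
    { smul := indMul φ ψ
      one_smul := indMul_one φ ψ
      mul_smul := indMul_mul φ ψ }
  refine ⟨Quotient (indSetoid φ ψ), MulAction.toPermHom G _,
    ⟨fun q => Quotient.mk _ (1, q), ?_⟩, ?_⟩
  · intro q q' hq
    obtain ⟨w, h1, h2⟩ := Quotient.exact hq
    have h3 : φ w = 1 := by simpa using h1.symm
    simp only [h w h3, one_mul] at h2
    exact h2.symm
  · intro w q
    change indMul φ ψ (φ w) (Quotient.mk _ (1, q)) = Quotient.mk _ (1, ψ w * q)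
    simp only [indMul, Quotient.map_mk]
    exact Quotient.sound ⟨w, by simp, rfl⟩

theorem thm_ker : S_ker := by
  intro G _ n R a a' g hR ha hker ha' hn
  apply le_antisymm
  · set N := Subgroup.normalClosure (R ∪ FreeGroup.of '' {j | n + 1 ≤ j}) with hN
    let π : FreeGroup ℕ →* FreeGroup ℕ ⧸ N := QuotientGroup.mk' N
    let ρ : FreeGroup ℕ →* FreeGroup ℕ :=
      FreeGroup.lift (fun j => if j < n then FreeGroup.of j else 1)
    have hπ : ∀ w, π w = 1 ↔ w ∈ N := fun w => by
      simp [π, QuotientGroup.eq_one_iff]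
    have hρ : ∀ w ∈ Subgroup.closure (FreeGroup.of '' {j | j < n}), ρ w = w := by
      intro w hw
      induction hw using Subgroup.closure_induction with
      | mem x hx =>
        obtain ⟨j, hj, rfl⟩ := hx
        have hj' : j < n := hj
        simp [ρ, hj']
      | one => simp
      | mul x y _ _ h1 h2 => rw [map_mul, h1, h2]
      | inv x _ h1 => rw [map_inv, h1]
    have hle : (FreeGroup.lift a).ker ≤ (π.comp ρ).ker := by
      rw [hker]
      apply Subgroup.normalClosure_le_normal
      rintro x (hx | ⟨j, hj, rfl⟩)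
      · simp only [SetLike.mem_coe, MonoidHom.mem_ker, MonoidHom.comp_apply]
        rw [hρ x (hR x hx), hπ]
        exact Subgroup.subset_normalClosure (Or.inl hx)
      · have hj' : ¬ j < n := not_lt.2 hj
        simp [ρ, hj']
    obtain ⟨X, α, ι, hι⟩ := induced (FreeGroup.lift a) (π.comp ρ) (fun w hw => hle hw)
    let T : Equiv.Perm X := Equiv.Perm.viaEmbedding (Equiv.mulLeft (π (FreeGroup.of n))) ι
    have hT : ∀ q, T (ι q) = ι (π (FreeGroup.of n) * q) := fun q => by
      simp [T, Equiv.Perm.viaEmbedding_apply]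
    obtain ⟨Φ, hΦ1, hΦ2⟩ : ∃ Φ : GZ G →* Equiv.Perm X,
        (∀ x, Φ (Monoid.Coprod.inl x) = α x) ∧ Φ (a' n) = T := by
      rcases hn with hn | hn
      · refine ⟨Monoid.Coprod.lift α (zpowersHom _ T), fun x => by simp, ?_⟩
        simp [hn, tt]
      · refine ⟨Monoid.Coprod.lift α (zpowersHom _ (α g * T⁻¹)), fun x => by simp, ?_⟩
        rw [hn, map_mul, map_inv]
        simp [tt]
    have key : ∀ w q, Φ (FreeGroup.lift a' w) (ι q) = ι (π w * q) := by
      intro w
      induction w using FreeGroup.induction_on with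
      | C1 => intro q; simp
      | of j =>
        intro q
        rw [FreeGroup.lift_apply_of]
        by_cases hj : j = n
        · subst hj
          rw [hΦ2, hT]
        · rw [ha' j hj, hΦ1]
          have h1 := hι (FreeGroup.of j) q
          rw [FreeGroup.lift_apply_of] at h1
          rw [h1]
          congr 2
          by_cases hj2 : j < n
          · simp [ρ, hj2]
          · have h2 : π (FreeGroup.of j) = 1 := by
              rw [hπ]
              exact Subgroup.subset_normalClosure
                (Or.inr ⟨j, by show n + 1 ≤ j; omega, rfl⟩)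
            rw [h2]
            simp [ρ, hj2]
      | inv_of j ih =>
        intro q
        rw [map_inv (FreeGroup.lift a'), map_inv Φ, map_inv π, Equiv.Perm.inv_eq_iff_eq, ih]
        simp
      | mul x y ihx ihy =>
        intro q
        rw [map_mul (FreeGroup.lift a'), map_mul Φ, map_mul π, Equiv.Perm.mul_apply, ihy, ihx,
          mul_assoc]
    intro w hw
    have h1 := key w 1
    rw [MonoidHom.mem_ker] at hw
    rw [hw, map_one, mul_one] at h1
    have h2 : (1 : FreeGroup ℕ ⧸ N) = π w := ι.injective (by simpa using h1)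
    exact (hπ w).1 h2.symm
  · apply Subgroup.normalClosure_le_normal
    rintro x (hx | ⟨j, hj, rfl⟩)
    · have h1 : ∀ w ∈ Subgroup.closure (FreeGroup.of '' {j | j < n}),
          FreeGroup.lift a' w = Monoid.Coprod.inl (FreeGroup.lift a w) := by
        intro w hw
        induction hw using Subgroup.closure_induction with
        | mem x hx =>
          obtain ⟨j, hj, rfl⟩ := hx
          have hj' : j < n := hj
          rw [FreeGroup.lift_apply_of, FreeGroup.lift_apply_of, ha' j (by omega)]
        | one => simp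
        | mul x y _ _ h1 h2 => rw [map_mul, h1, h2, map_mul, map_mul]
        | inv x _ h1 => rw [map_inv, h1, map_inv, map_inv]
      have h2 : FreeGroup.lift a x = 1 := by
        rw [← MonoidHom.mem_ker, hker]
        exact Subgroup.subset_normalClosure (Or.inl hx)
      simp only [SetLike.mem_coe, MonoidHom.mem_ker]
      rw [h1 x (hR x hx), h2, map_one]
    · have hj' : n + 1 ≤ j := hj
      simp only [SetLike.mem_coe, MonoidHom.mem_ker]
      rw [FreeGroup.lift_apply_of, ha' j (by omega), ha j (by omega), map_one]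

end Pool.Agent.H119Z.Ker
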